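import Pool.Agent.R482.ST.Dens

/-!
# Sets of small measure and the values of starshaped functions

Let `S` be a set of reals which meets `[2 ^ j, 2 ^ (j + 1))` in a set of relative measure at most `D(2 ^ j) r_j`, `D`
nonincreasing, `r` summable. Let `f_n` be positive with `f_n(x) / x` nondecreasing on `(a, ∞)`, tending to infinity, and
let the sum of the `D(f_n(x) / 2)` converge. Then for almost all `x > a` only finitely many of the `f_n(x)` lie in `S`.
-/

set_option autoImplicit false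

namespace Pool.Agent.R770.LG

open MeasureTheory Filter Set
open scoped ENNReal NNReal
open Pool.Agent.R482.ST (Star B ae_core)

lemma vol_image {g : ℝ → ℝ} {s : Set ℝ} {K : ℝ} (hK : 0 ≤ K)
    (h : ∀ x ∈ s, ∀ y ∈ s, |g x - g y| ≤ K * |x - y|) :
    volume (g '' s) ≤ ENNReal.ofReal K * volume s := by
  have h1 : LipschitzOnWith (Real.toNNReal K) g s := by
    apply LipschitzOnWith.of_dist_le_mul
    intro x hx y hy
    rw [Real.coe_toNNReal _ hK, Real.dist_eq, Real.dist_eq]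
    exact h x hx y hy
  have h2 := h1.hausdorffMeasure_image_le (d := 1) zero_le_one
  rw [hausdorffMeasure_real, ENNReal.rpow_one] at h2
  exact h2

lemma vol_pull {f : ℝ → ℝ} {a lo hi : ℝ} (ha : 0 ≤ a) (hlo : a < lo)
    (hf : ∀ x y : ℝ, a < x → x ≤ y → 0 < f x ∧ f x / x ≤ f y / y) (S : Set ℝ) :
    volume {x : ℝ | lo ≤ x ∧ x ≤ hi ∧ f x ∈ S} ≤
      ENNReal.ofReal hi * volume {u : ℝ | Real.log (f lo) ≤ u ∧ Real.exp u ∈ S} := by
  set A : Set ℝ := {x : ℝ | lo ≤ x ∧ x ≤ hi ∧ f x ∈ S} with hA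
  rcases A.eq_empty_or_nonempty with hem | ⟨x0, hx0⟩
  · rw [hem, measure_empty]
    exact zero_le
  have hlo0 : 0 < lo := by linarith
  have hhi0 : 0 < hi := lt_of_lt_of_le hlo0 (hx0.1.trans hx0.2.1)
  have hax : ∀ x ∈ A, a < x := fun x hx => lt_of_lt_of_le hlo hx.1
  have hfp : ∀ x ∈ A, 0 < f x := fun x hx => (hf x x (hax x hx) le_rfl).1
  set ψ : ℝ → ℝ := fun x => Real.log (f x) with hψ
  have key : ∀ x ∈ A, ∀ y ∈ A, x ≤ y → y - x ≤ hi * (ψ y - ψ x) := by
    intro x hx y hy hxy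
    have hx1 : 0 < x := lt_of_lt_of_le hlo0 hx.1
    have hy1 : 0 < y := lt_of_lt_of_le hlo0 hy.1
    have h1 := (hf x y (hax x hx) hxy).2
    have h2 : y / x ≤ f y / f x := by
      rw [div_le_div_iff₀ hx1 hy1] at h1
      rw [div_le_div_iff₀ hx1 (hfp x hx)]
      linarith
    have h3 : Real.log (y / x) ≤ ψ y - ψ x := by
      rw [hψ]
      dsimp only
      rw [← Real.log_div (hfp y hy).ne' (hfp x hx).ne']
      exact Real.log_le_log (by positivity) h2
    have h4 := Real.one_sub_inv_le_log_of_pos (show 0 < y / x by positivity)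
    rw [inv_div] at h4
    have h5 : (y - x) / y ≤ ψ y - ψ x := by
      have : (y - x) / y = 1 - x / y := by field_simp
      linarith
    rw [div_le_iff₀ hy1] at h5
    have h6 : 0 ≤ ψ y - ψ x := by
      have : 0 ≤ (ψ y - ψ x) * y := by linarith
      exact nonneg_of_mul_nonneg_left this hy1
    have h7 : y ≤ hi := hy.2.1
    nlinarith
  have hinj : InjOn ψ A := by
    intro x hx y hy hxy
    rcases le_total x y with h | h
    · have := key x hx y hy h
      rw [hxy, sub_self, mul_zero] at this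
      linarith
    · have := key y hy x hx h
      rw [hxy, sub_self, mul_zero] at this
      linarith
  set g : ℝ → ℝ := Function.invFunOn ψ A with hg
  have hleft : ∀ x ∈ A, g (ψ x) = x := fun x hx => hinj.leftInvOn_invFunOn hx
  have hsub : A ⊆ g '' (ψ '' A) := fun x hx => ⟨ψ x, ⟨x, hx, rfl⟩, hleft x hx⟩
  have hlip : ∀ u ∈ ψ '' A, ∀ v ∈ ψ '' A, |g u - g v| ≤ hi * |u - v| := by
    rintro _ ⟨x, hx, rfl⟩ _ ⟨y, hy, rfl⟩
    rw [hleft x hx, hleft y hy]
    rcases le_total x y with h | h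
    · have h1 := key x hx y hy h
      have h2 : hi * (ψ y - ψ x) ≤ hi * |ψ x - ψ y| := by
        apply mul_le_mul_of_nonneg_left _ hhi0.le
        rw [abs_sub_comm]
        exact le_abs_self _
      rw [abs_sub_comm, abs_of_nonneg (by linarith)]
      linarith
    · have h1 := key y hy x hx h
      have h2 : hi * (ψ x - ψ y) ≤ hi * |ψ x - ψ y| :=
        mul_le_mul_of_nonneg_left (le_abs_self _) hhi0.le
      rw [abs_of_nonneg (by linarith)]
      linarith
  calc volume A ≤ volume (g '' (ψ '' A)) := measure_mono hsub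
    _ ≤ ENNReal.ofReal hi * volume (ψ '' A) := vol_image hhi0.le hlip
    _ ≤ _ := by
        gcongr
        rintro _ ⟨x, hx, rfl⟩
        refine ⟨?_, ?_⟩
        · apply Real.log_le_log (hf lo lo hlo le_rfl).1
          have h1 := (hf lo x hlo hx.1).2
          have h0 := (hf lo lo hlo le_rfl).1
          have hx1 : 0 < x := lt_of_lt_of_le hlo0 hx.1
          rw [div_le_div_iff₀ hlo0 hx1] at h1
          have h2 : f lo * lo ≤ f x * lo := (mul_le_mul_of_nonneg_left hx.1 h0.le).trans h1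
          exact le_of_mul_le_mul_right h2 hlo0
        · rw [Real.exp_log (hfp x hx)]
          exact hx.2.2

lemma vol_block (S : Set ℝ) (j : ℕ) :
    volume {u : ℝ | Real.exp u ∈ S ∧ (2 : ℝ) ^ j ≤ Real.exp u ∧ Real.exp u < 2 ^ (j + 1)} ≤
      ENNReal.ofReal (1 / 2 ^ j) * volume (S ∩ Ico ((2 : ℝ) ^ j) (2 ^ (j + 1))) := by
  have hsub : {u : ℝ | Real.exp u ∈ S ∧ (2 : ℝ) ^ j ≤ Real.exp u ∧ Real.exp u < 2 ^ (j + 1)} ⊆
      Real.log '' (S ∩ Ico ((2 : ℝ) ^ j) (2 ^ (j + 1))) := by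
    rintro u ⟨h1, h2, h3⟩
    exact ⟨Real.exp u, ⟨h1, h2, h3⟩, Real.log_exp u⟩
  have h2j : (0 : ℝ) < 2 ^ j := by positivity
  have key : ∀ x y : ℝ, (2 : ℝ) ^ j ≤ y → y ≤ x → Real.log x - Real.log y ≤ 1 / 2 ^ j * (x - y) := by
    intro x y hy hyx
    have hy0 : 0 < y := by linarith
    have hx0 : 0 < x := by linarith
    rw [← Real.log_div hx0.ne' hy0.ne']
    have h1 := Real.log_le_sub_one_of_pos (show 0 < x / y by positivity)
    have h2 : x / y - 1 = (x - y) / y := by field_simp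
    have h3 : (x - y) / y ≤ (x - y) / 2 ^ j := div_le_div_of_nonneg_left (by linarith) h2j hy
    calc _ ≤ (x - y) / 2 ^ j := by linarith
      _ = _ := by ring
  refine (measure_mono hsub).trans (vol_image (by positivity) ?_)
  rintro x ⟨-, hx1, -⟩ y ⟨-, hy1, -⟩
  rcases le_total x y with h | h
  · have h1 := key y x hx1 h
    have h2 : 0 ≤ Real.log y - Real.log x := sub_nonneg.2 (Real.log_le_log (by linarith) h)
    rw [abs_sub_comm, abs_of_nonneg h2, abs_sub_comm, abs_of_nonneg (by linarith)]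
    exact h1
  · have h1 := key x y hy1 h
    have h2 : 0 ≤ Real.log x - Real.log y := sub_nonneg.2 (Real.log_le_log (by linarith) h)
    rw [abs_of_nonneg h2, abs_of_nonneg (by linarith)]
    exact h1

lemma vol_tail (S : Set ℝ) (w : ℕ → ℝ) (J : ℕ)
    (hw : ∀ j, J ≤ j → volume (S ∩ Ico ((2 : ℝ) ^ j) (2 ^ (j + 1))) ≤ ENNReal.ofReal (2 ^ j * w j))
    (hw0 : ∀ j, 0 ≤ w j) (hs : Summable fun i => w (i + J)) {Y : ℝ} (hY : (2 : ℝ) ^ J ≤ Y) :
    volume {u : ℝ | Real.log Y ≤ u ∧ Real.exp u ∈ S} ≤ ENNReal.ofReal (∑' i, w (i + J)) := by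
  have hY0 : 0 < Y := lt_of_lt_of_le (by positivity) hY
  have hsub : {u : ℝ | Real.log Y ≤ u ∧ Real.exp u ∈ S} ⊆
      ⋃ i : ℕ, {u : ℝ | Real.exp u ∈ S ∧ (2 : ℝ) ^ (i + J) ≤ Real.exp u ∧ Real.exp u < 2 ^ (i + J + 1)} := by
    rintro u ⟨h1, h2⟩
    have h3 : Y ≤ Real.exp u := by
      rw [← Real.exp_log hY0]
      exact Real.exp_le_exp.2 h1
    have h4 : (1 : ℝ) ≤ Real.exp u := (one_le_pow₀ (by norm_num : (1 : ℝ) ≤ 2)).trans (hY.trans h3)
    obtain ⟨j, h5, h6⟩ := exists_nat_pow_near h4 (by norm_num : (1 : ℝ) < 2)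
    have h7 : J ≤ j := by
      by_contra hcon
      push Not at hcon
      have h8 : (2 : ℝ) ^ (j + 1) ≤ 2 ^ J := pow_le_pow_right₀ (by norm_num) hcon
      linarith
    obtain ⟨i, rfl⟩ := Nat.exists_eq_add_of_le' h7
    exact mem_iUnion.2 ⟨i, h2, h5, h6⟩
  refine (measure_mono hsub).trans ((measure_iUnion_le _).trans ?_)
  rw [ENNReal.ofReal_tsum_of_nonneg (fun i => hw0 _) hs]
  apply ENNReal.tsum_le_tsum
  intro i
  refine (vol_block S (i + J)).trans ?_
  have h1 := hw (i + J) (Nat.le_add_left _ _)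
  calc _ ≤ ENNReal.ofReal (1 / 2 ^ (i + J)) * ENNReal.ofReal (2 ^ (i + J) * w (i + J)) := by gcongr
    _ = ENNReal.ofReal (w (i + J)) := by
        rw [← ENNReal.ofReal_mul (by positivity)]
        congr 1
        field_simp

theorem star_ae {a : ℝ} (ha : 0 ≤ a) {f : ℕ → ℝ → ℝ} (hf : Star a f)
    (hinf : ∀ x : ℝ, a < x → Tendsto (fun n => f n x) atTop atTop) (S : Set ℝ) {D : ℝ → ℝ} {r : ℕ → ℝ}
    (hr : ∀ j, 0 ≤ r j) (hrs : Summable r) (hD0 : ∀ X : ℝ, 1 ≤ X → 0 ≤ D X)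
    (hD : ∀ X Y : ℝ, 1 ≤ X → X ≤ Y → D Y ≤ D X) (j₀ : ℕ)
    (hS : ∀ j, j₀ ≤ j → volume (S ∩ Ico ((2 : ℝ) ^ j) (2 ^ (j + 1))) ≤
      ENNReal.ofReal (2 ^ j * (D (2 ^ j) * r j)))
    (hsum : ∀ x : ℝ, a < x → Summable fun n => D (f n x / 2)) :
    ∃ N : Set ℝ, volume N = 0 ∧ ∀ x : ℝ, a < x → x ∉ N → ∃ n₀ : ℕ, ∀ n : ℕ, n₀ ≤ n → f n x ∉ S := by
  obtain ⟨N, hN, h⟩ := ae_core (fun _ => S) (fun t : ℝ => t) (f := f) (a := a) (L := fun _ => 0) (by
    intro lo hi hlo hlh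
    have hhi0 : 0 < hi := by linarith
    set R : ℝ := ∑' j, r j with hR
    have hR0 : 0 ≤ R := tsum_nonneg hr
    refine ⟨fun n => hi * (|D (f n lo / 2)| * R), fun n => by positivity,
      ((hsum lo hlo).abs.mul_right R).mul_left hi, ?_⟩
    filter_upwards [(hinf lo hlo).eventually (eventually_ge_atTop ((2 : ℝ) ^ (j₀ + 1)))] with n hn
    have h21 : (2 : ℝ) ≤ 2 ^ (j₀ + 1) := by
      calc (2 : ℝ) = 2 ^ 1 := by norm_num
        _ ≤ 2 ^ (j₀ + 1) := pow_le_pow_right₀ (by norm_num) (by omega)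
    have h1 : (1 : ℝ) ≤ f n lo := by linarith
    obtain ⟨J, hJ1, hJ2⟩ := exists_nat_pow_near h1 (by norm_num : (1 : ℝ) < 2)
    have hJ0 : j₀ ≤ J := by
      by_contra hcon
      push Not at hcon
      have h8 : (2 : ℝ) ^ (J + 1) ≤ 2 ^ (j₀ + 1) := pow_le_pow_right₀ (by norm_num) (by omega)
      linarith
    have hone : ∀ j : ℕ, (1 : ℝ) ≤ 2 ^ j := fun j => one_le_pow₀ (by norm_num)
    set w : ℕ → ℝ := fun j => D (2 ^ j) * r j with hw
    have hw0 : ∀ j, 0 ≤ w j := fun j => mul_nonneg (hD0 _ (hone j)) (hr j)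
    have hhalf1 : 1 ≤ f n lo / 2 := by linarith
    have hDJ : ∀ i : ℕ, w (i + J) ≤ D (f n lo / 2) * r (i + J) := by
      intro i
      apply mul_le_mul_of_nonneg_right _ (hr _)
      apply hD _ _ hhalf1
      have h2 : (2 : ℝ) ^ J ≤ 2 ^ (i + J) := pow_le_pow_right₀ (by norm_num) (by omega)
      have h3 : (2 : ℝ) ^ (J + 1) = 2 * 2 ^ J := by ring
      linarith
    have hrs' : Summable fun i => r (i + J) := (summable_nat_add_iff J).2 hrs
    have hws : Summable fun i => w (i + J) :=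
      Summable.of_nonneg_of_le (fun i => hw0 _) hDJ (hrs'.mul_left _)
    have htail : ∑' i, w (i + J) ≤ D (f n lo / 2) * R := by
      calc ∑' i, w (i + J) ≤ ∑' i, D (f n lo / 2) * r (i + J) := hws.tsum_le_tsum hDJ (hrs'.mul_left _)
        _ = D (f n lo / 2) * ∑' i, r (i + J) := tsum_mul_left
        _ ≤ D (f n lo / 2) * R := by
            apply mul_le_mul_of_nonneg_left _ (hD0 _ hhalf1)
            rw [hR, ← hrs.sum_add_tsum_nat_add J]
            have : 0 ≤ ∑ i ∈ Finset.range J, r i := Finset.sum_nonneg fun i _ => hr i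
            linarith
    have hv1 := vol_pull (hi := hi) ha hlo (hf n) S
    have hv2 := vol_tail S w J (fun j hj => hS j (hJ0.trans hj)) hw0 hws hJ1
    have hsubB : B S (fun t : ℝ => t) (f n) 0 lo hi ⊆ {x : ℝ | lo ≤ x ∧ x ≤ hi ∧ f n x ∈ S} := by
      rintro x ⟨h2, h3, t, ht, h4⟩
      have h5 : t = f n x := by
        have := abs_nonpos_iff.1 h4
        linarith
      exact ⟨h2, h3, h5 ▸ ht⟩
    calc volume (B S (fun t : ℝ => t) (f n) 0 lo hi) ≤ volume {x : ℝ | lo ≤ x ∧ x ≤ hi ∧ f n x ∈ S} :=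
          measure_mono hsubB
      _ ≤ ENNReal.ofReal hi * volume {u : ℝ | Real.log (f n lo) ≤ u ∧ Real.exp u ∈ S} := hv1
      _ ≤ ENNReal.ofReal hi * ENNReal.ofReal (∑' i, w (i + J)) := by gcongr
      _ ≤ ENNReal.ofReal (hi * (|D (f n lo / 2)| * R)) := by
          rw [← ENNReal.ofReal_mul hhi0.le]
          apply ENNReal.ofReal_le_ofReal
          apply mul_le_mul_of_nonneg_left _ hhi0.le
          exact htail.trans (mul_le_mul_of_nonneg_right (le_abs_self _) hR0))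
  refine ⟨N, hN, fun x hx hxN => ?_⟩
  obtain ⟨n₀, hn₀⟩ := h x hx hxN
  refine ⟨n₀, fun n hn hcon => ?_⟩
  have := hn₀ n hn (f n x) hcon
  simp at this

end Pool.Agent.R770.LG
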