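import Pool.Agent.R770.LG.Meas

/-!
# Sets of small measure and the values of starshaped functions: a power and a logarithmic version
-/

set_option autoImplicit false

namespace Pool.Agent.R770.LG

open MeasureTheory Filter Set
open Pool.Agent.R482.ST (Star)

theorem star_pow_ae {a : ℝ} (ha : 0 ≤ a) {f : ℕ → ℝ → ℝ} (hf : Star a f)
    (hthin : ∀ x : ℝ, a < x → ∀ t : ℝ, 0 < t → Summable (fun n : ℕ => (f n x) ^ (-t))) (S : Set ℝ) {δ : ℝ}
    (hδ : 0 < δ) (j₀ : ℕ)
    (hS : ∀ j, j₀ ≤ j → volume (S ∩ Ico ((2 : ℝ) ^ j) (2 ^ (j + 1))) ≤ ENNReal.ofReal (((2 : ℝ) ^ j) ^ (1 - δ))) :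
    ∃ N : Set ℝ, volume N = 0 ∧ ∀ x : ℝ, a < x → x ∉ N → ∃ n₀ : ℕ, ∀ n : ℕ, n₀ ≤ n → f n x ∉ S := by
  have hpos : ∀ n x, a < x → 0 < f n x := fun n x hx => (hf n x x hx le_rfl).1
  have hinf : ∀ x : ℝ, a < x → Tendsto (fun n => f n x) atTop atTop := by
    intro x hx
    rw [tendsto_atTop]
    intro M
    exact Pool.Agent.R482.ST.large (fun n => hpos n x hx) one_pos (hthin x hx 1 one_pos) M
  have hr : Summable fun j : ℕ => ((2 : ℝ) ^ j) ^ (-(δ / 2)) := by
    have h1 : ∀ j : ℕ, ((2 : ℝ) ^ j) ^ (-(δ / 2)) = ((2 : ℝ) ^ (-(δ / 2))) ^ j := by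
      intro j
      rw [← Real.rpow_natCast, ← Real.rpow_natCast, ← Real.rpow_mul (by norm_num), ← Real.rpow_mul (by norm_num),
        mul_comm]
    simp only [h1]
    apply summable_geometric_of_lt_one (by positivity)
    exact Real.rpow_lt_one_of_one_lt_of_neg (by norm_num) (by linarith)
  refine star_ae ha hf hinf S (D := fun X => X ^ (-(δ / 2))) (fun j => by positivity) hr
    (fun X hX => by positivity) (fun X Y hX hXY => Real.rpow_le_rpow_of_nonpos (by linarith) hXY (by linarith))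
    j₀ (fun j hj => (hS j hj).trans (le_of_eq ?_)) (fun x hx => ?_)
  · congr 1
    have h2 : (0 : ℝ) < 2 ^ j := by positivity
    rw [← Real.rpow_add h2]
    nth_rewrite 2 [← Real.rpow_one ((2 : ℝ) ^ j)]
    rw [← Real.rpow_add h2]
    congr 1
    ring
  · refine ((hthin x hx (δ / 2) (by positivity)).mul_left ((2 : ℝ) ^ (δ / 2))).congr fun n => ?_
    have h3 := hpos n x hx
    rw [Real.div_rpow h3.le (by norm_num), Real.rpow_neg (by norm_num : (0 : ℝ) ≤ 2), div_inv_eq_mul, mul_comm]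

theorem star_log_ae {a : ℝ} (ha : 0 ≤ a) {f : ℕ → ℝ → ℝ} (hf : Star a f)
    (hinf : ∀ x : ℝ, a < x → Tendsto (fun n => f n x) atTop atTop) (B : ℕ)
    (hsum : ∀ x : ℝ, a < x → Summable fun n => 1 / Real.log (f n x) ^ B) (S : Set ℝ) (j₀ : ℕ)
    (hS : ∀ j, j₀ ≤ j → volume (S ∩ Ico ((2 : ℝ) ^ j) (2 ^ (j + 1))) ≤
      ENNReal.ofReal ((2 : ℝ) ^ j / Real.log ((2 : ℝ) ^ j) ^ (B + 2))) :
    ∃ N : Set ℝ, volume N = 0 ∧ ∀ x : ℝ, a < x → x ∉ N → ∃ n₀ : ℕ, ∀ n : ℕ, n₀ ≤ n → f n x ∉ S := by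
  have hl2 : 1 / 2 < Real.log 2 := by
    have := Real.log_two_gt_d9
    linarith
  have hl2' : Real.log 2 < 1 := by
    have := Real.log_two_lt_d9
    linarith
  have hr : Summable fun j : ℕ => (3 : ℝ) ^ B * 4 * (1 / (j : ℝ) ^ 2) :=
    (Real.summable_one_div_nat_pow.2 (by norm_num)).mul_left _
  refine star_ae ha hf hinf S (D := fun X => 1 / (1 + Real.log X) ^ B)
    (r := fun j : ℕ => (3 : ℝ) ^ B * 4 * (1 / (j : ℝ) ^ 2)) (fun j => by positivity) hr
    (fun X hX => by
      have := Real.log_nonneg hX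
      positivity) (fun X Y hX hXY => by
      have h1 := Real.log_nonneg hX
      have h2 := Real.log_le_log (by linarith) hXY
      apply one_div_le_one_div_of_le (by positivity)
      exact pow_le_pow_left₀ (by linarith) (by linarith) B)
    (j₀ + 1) (fun j hj => (hS j (by omega)).trans (ENNReal.ofReal_le_ofReal ?_)) (fun x hx => ?_)
  · have hj1 : (1 : ℝ) ≤ j := by exact_mod_cast (by omega : 1 ≤ j)
    rw [div_eq_mul_one_div]
    apply mul_le_mul_of_nonneg_left _ (by positivity)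
    show 1 / Real.log ((2 : ℝ) ^ j) ^ (B + 2) ≤ 1 / (1 + Real.log ((2 : ℝ) ^ j)) ^ B * (3 ^ B * 4 * (1 / (j : ℝ) ^ 2))
    rw [Real.log_pow]
    set y : ℝ := (j : ℝ) * Real.log 2 with hy
    have hy2 : (j : ℝ) / 2 ≤ y := by
      rw [hy]
      nlinarith
    have hy0 : 0 < y := by linarith
    have h1 : 1 / y ^ B ≤ 3 ^ B / (1 + y) ^ B := by
      rw [div_le_div_iff₀ (by positivity) (by positivity), one_mul, ← mul_pow]
      exact pow_le_pow_left₀ (by positivity) (by linarith) B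
    have h2 : 1 / y ^ 2 ≤ 4 * (1 / (j : ℝ) ^ 2) := by
      rw [mul_one_div, div_le_div_iff₀ (by positivity) (by positivity)]
      nlinarith
    calc 1 / y ^ (B + 2) = 1 / y ^ B * (1 / y ^ 2) := by
          rw [pow_add]
          field_simp
      _ ≤ 3 ^ B / (1 + y) ^ B * (4 * (1 / (j : ℝ) ^ 2)) := mul_le_mul h1 h2 (by positivity) (by positivity)
      _ = _ := by
          field_simp
  · refine Summable.of_norm_bounded_eventually_nat (hsum x hx) ?_
    filter_upwards [(hinf x hx).eventually (eventually_ge_atTop 3)] with n hn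
    have h0 : 0 < f n x := by linarith
    have hlog : 0 < Real.log (f n x) := Real.log_pos (by linarith)
    have h1 : Real.log (f n x / 2) = Real.log (f n x) - Real.log 2 := Real.log_div h0.ne' (by norm_num)
    have h2 : Real.log (f n x) ≤ 1 + Real.log (f n x / 2) := by
      rw [h1]
      linarith
    rw [Real.norm_of_nonneg (by
      have : 0 < 1 + Real.log (f n x / 2) := by linarith
      positivity)]
    apply one_div_le_one_div_of_le (by positivity)
    exact pow_le_pow_left₀ hlog.le h2 B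

end Pool.Agent.R770.LG
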