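import Mathlib

/-!
# Borel-Cantelli for sets of integers with at most `X / (log X) ^ b` members up to `X`, for every `b`
-/

set_option autoImplicit false

namespace Pool.Agent.R770.LG

open MeasureTheory Filter Finset
open scoped ENNReal

/-- the weight `(1 + log n) ^ c / n` -/
noncomputable def wt (c : ℝ) (n : ℕ) : ℝ := (1 + Real.log n) ^ c / n

lemma one_le_log {n : ℕ} (hn : 1 ≤ n) : 1 ≤ 1 + Real.log (n : ℝ) := by
  have : (1 : ℝ) ≤ n := by exact_mod_cast hn
  linarith [Real.log_nonneg this]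

lemma wt_nonneg (c : ℝ) {n : ℕ} (hn : 1 ≤ n) : 0 ≤ wt c n := by
  have := one_le_log hn
  unfold wt
  positivity

lemma wt_mono {c c' : ℝ} (h : c ≤ c') {n : ℕ} (hn : 1 ≤ n) : wt c n ≤ wt c' n := by
  unfold wt
  exact div_le_div_of_nonneg_right (Real.rpow_le_rpow_of_exponent_le (one_le_log hn) h) (Nat.cast_nonneg n)

lemma wt_zero (c : ℝ) : wt c 0 = 0 := by simp [wt]

/-- a member of the dyadic block `k` -/
lemma wt_block {c : ℝ} (hc : 0 ≤ c) {n k : ℕ} (hk : Nat.log 2 n = k) :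
    wt c n ≤ (1 + ((k : ℝ) + 1) * Real.log 2) ^ c / 2 ^ k := by
  have hl2 : 0 < Real.log 2 := Real.log_pos (by norm_num)
  rcases Nat.eq_zero_or_pos n with h0 | h0
  · rw [h0, wt_zero]
    positivity
  · have h1 : 2 ^ k ≤ n := by rw [← hk]; exact Nat.pow_log_le_self 2 h0.ne'
    have h2 : n < 2 ^ (k + 1) := by rw [← hk]; exact Nat.lt_pow_succ_log_self (by norm_num) n
    have h1' : (2 : ℝ) ^ k ≤ n := by exact_mod_cast h1
    have h2' : (n : ℝ) ≤ 2 ^ (k + 1) := by exact_mod_cast h2.le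
    have h0' : (0 : ℝ) < n := by exact_mod_cast h0
    have h3 : Real.log n ≤ ((k : ℝ) + 1) * Real.log 2 := by
      have := Real.log_le_log h0' h2'
      rw [Real.log_pow] at this
      push_cast at this
      exact this
    have h4 := one_le_log h0
    unfold wt
    apply div_le_div₀ (by positivity) _ (by positivity) h1'
    exact Real.rpow_le_rpow (by linarith) (by linarith) hc

lemma summable_block : Summable fun k : ℕ => (1 + ((k : ℝ) + 1) * Real.log 2) ^ (-2 : ℝ) := by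
  have hl2 : 0 < Real.log 2 := Real.log_pos (by norm_num)
  have h1 : Summable fun k : ℕ => ((Real.log 2) ^ (-2 : ℝ)) * ((k : ℝ) + 1) ^ (-2 : ℝ) := by
    apply Summable.mul_left
    have h2 : Summable fun k : ℕ => ((k : ℝ)) ^ (-2 : ℝ) := Real.summable_nat_rpow.2 (by norm_num)
    have h3 := (summable_nat_add_iff (f := fun k : ℕ => ((k : ℝ)) ^ (-2 : ℝ)) 1).2 h2
    refine h3.congr fun k => ?_
    push_cast
    rfl
  refine Summable.of_nonneg_of_le (fun k => by positivity) (fun k => ?_) h1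
  rw [← Real.mul_rpow hl2.le (by positivity)]
  apply Real.rpow_le_rpow_of_nonpos (by positivity) _ (by norm_num)
  nlinarith

open Classical in
lemma summable_wt (S : Set ℕ) (c C : ℝ) (hc : 0 ≤ c)
    (h : ∀ X : ℝ, 1 ≤ X → {t : ℕ | t ∈ S ∧ (t : ℝ) ≤ X}.Finite ∧
      ({t : ℕ | t ∈ S ∧ (t : ℝ) ≤ X}.ncard : ℝ) ≤ C * X * (1 + Real.log X) ^ (-(c + 2))) :
    Summable fun n : ℕ => if n ∈ S then wt c n else 0 := by
  have hl2 : 0 < Real.log 2 := Real.log_pos (by norm_num)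
  have hC : 0 ≤ C := by
    have h1 := (h 1 le_rfl).2
    simp only [Real.log_one, add_zero, Real.one_rpow, mul_one] at h1
    exact (Nat.cast_nonneg _).trans h1
  set f : ℕ → ℝ := fun n => if n ∈ S then wt c n else 0 with hf
  set b : ℕ → ℝ := fun k => 2 * C * (1 + ((k : ℝ) + 1) * Real.log 2) ^ (-2 : ℝ) with hb
  have hbs : Summable b := summable_block.mul_left _
  have hbn : ∀ k, 0 ≤ b k := fun k => by rw [hb]; positivity
  have hnn : ∀ n, 0 ≤ f n := by
    intro n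
    rw [hf]
    dsimp only
    split_ifs with h1
    · rcases Nat.eq_zero_or_pos n with h0 | h0
      · rw [h0, wt_zero]
      · exact wt_nonneg c h0
    · exact le_rfl
  refine summable_of_sum_le (c := ∑' k, b k) hnn fun u => ?_
  rw [← Finset.sum_fiberwise_of_maps_to (g := Nat.log 2) (t := u.image (Nat.log 2))
    (fun n hn => Finset.mem_image_of_mem _ hn)]
  refine (Finset.sum_le_sum fun k _ => ?_).trans (hbs.sum_le_tsum _ fun k _ => hbn k)
  have hX : (1 : ℝ) ≤ 2 ^ (k + 1) := one_le_pow₀ (by norm_num)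
  obtain ⟨h1, h2⟩ := h (2 ^ (k + 1)) hX
  set L : ℝ := 1 + ((k : ℝ) + 1) * Real.log 2 with hL
  have hL0 : 0 < L := by positivity
  have hlog : 1 + Real.log ((2 : ℝ) ^ (k + 1)) = L := by
    rw [Real.log_pow, hL]
    push_cast
    ring
  rw [hlog] at h2
  have h3 : ∑ n ∈ u with Nat.log 2 n = k, f n =
      ∑ n ∈ (u.filter fun n => Nat.log 2 n = k).filter (fun n => n ∈ S), wt c n := by
    rw [hf, Finset.sum_filter (p := fun n => n ∈ S)]
  rw [h3]
  have h4 : ∑ n ∈ (u.filter fun n => Nat.log 2 n = k).filter (fun n => n ∈ S), wt c n ≤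
      (((u.filter fun n => Nat.log 2 n = k).filter (fun n => n ∈ S)).card : ℝ) * (L ^ c / 2 ^ k) := by
    rw [← nsmul_eq_mul]
    apply Finset.sum_le_card_nsmul
    intro n hn
    rw [Finset.mem_filter, Finset.mem_filter] at hn
    exact wt_block hc hn.1.2
  have h5 : (((u.filter fun n => Nat.log 2 n = k).filter (fun n => n ∈ S)).card : ℝ) ≤
      ({t : ℕ | t ∈ S ∧ (t : ℝ) ≤ 2 ^ (k + 1)}.ncard : ℝ) := by
    have h6 := Set.ncard_le_ncard (s := (((u.filter fun n => Nat.log 2 n = k).filter (fun n => n ∈ S) : Finset ℕ) : Set ℕ))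
      (t := {t : ℕ | t ∈ S ∧ (t : ℝ) ≤ 2 ^ (k + 1)}) (by
        intro n hn
        rw [Finset.mem_coe, Finset.mem_filter, Finset.mem_filter] at hn
        refine ⟨hn.2, ?_⟩
        have h7 : n < 2 ^ (k + 1) := by rw [← hn.1.2]; exact Nat.lt_pow_succ_log_self (by norm_num) n
        exact_mod_cast h7.le) h1
    rw [Set.ncard_coe_finset] at h6
    exact_mod_cast h6
  have h8 : 0 ≤ L ^ c / 2 ^ k := by positivity
  calc _ ≤ _ := h4
    _ ≤ (C * 2 ^ (k + 1) * L ^ (-(c + 2))) * (L ^ c / 2 ^ k) :=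
        mul_le_mul_of_nonneg_right (h5.trans h2) h8
    _ = b k := by
        have h9 : L ^ (-(c + 2)) * L ^ c = L ^ (-2 : ℝ) := by
          rw [← Real.rpow_add hL0]
          congr 1
          ring
        rw [hb]
        dsimp only
        rw [← hL, ← h9]
        field_simp
        ring

/-- **Borel-Cantelli.** -/
theorem ae_finite (S : Set ℕ) (hS : ∀ b : ℝ, 0 < b → ∃ C : ℝ, ∀ X : ℝ, 1 ≤ X → {t : ℕ | t ∈ S ∧ (t : ℝ) ≤ X}.Finite ∧
      ({t : ℕ | t ∈ S ∧ (t : ℝ) ≤ X}.ncard : ℝ) ≤ C * X * (1 + Real.log X) ^ (-b))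
    {Ω : Type} [MeasurableSpace Ω] (μ : Measure Ω) (W : ℕ → Set Ω) (C c : ℝ)
    (hW : ∀ N : ℕ, 1 ≤ N → μ (W N) ≤ ENNReal.ofReal (C * ((1 + Real.log N) ^ c / N))) :
    ∀ᵐ ω ∂μ, {N | N ∈ S ∧ ω ∈ W N}.Finite := by
  classical
  set c' : ℝ := max c 0 with hc'
  have hc0 : 0 ≤ c' := le_max_right _ _
  obtain ⟨C', hC'⟩ := hS (c' + 2) (by positivity)
  have hs := (summable_wt S c' C' hc0 hC').mul_left (max C 0)
  set U : ℕ → Set Ω := fun N => if N ∈ S ∧ 1 ≤ N then W N else ∅ with hU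
  have hle : ∀ N, μ (U N) ≤ ENNReal.ofReal (max C 0 * (if N ∈ S then wt c' N else 0)) := by
    intro N
    rw [hU]
    dsimp only
    by_cases h1 : N ∈ S ∧ 1 ≤ N
    · rw [if_pos h1, if_pos h1.1]
      refine (hW N h1.2).trans (ENNReal.ofReal_le_ofReal ?_)
      have h2 : (1 + Real.log N) ^ c / N ≤ wt c' N := wt_mono (le_max_left _ _) h1.2
      have h3 : 0 ≤ (1 + Real.log N) ^ c / N := wt_nonneg c h1.2
      calc C * ((1 + Real.log N) ^ c / N) ≤ max C 0 * ((1 + Real.log N) ^ c / N) :=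
            mul_le_mul_of_nonneg_right (le_max_left _ _) h3
        _ ≤ _ := mul_le_mul_of_nonneg_left h2 (le_max_right _ _)
    · rw [if_neg h1, measure_empty]
      exact zero_le
  have hnn : ∀ N, 0 ≤ max C 0 * (if N ∈ S then wt c' N else 0) := by
    intro N
    apply mul_nonneg (le_max_right _ _)
    split_ifs with h1
    · rcases Nat.eq_zero_or_pos N with h0 | h0
      · rw [h0, wt_zero]
      · exact wt_nonneg c' h0
    · exact le_rfl
  have htop : (∑' N, μ (U N)) ≠ ∞ := by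
    refine ne_top_of_le_ne_top ?_ (ENNReal.tsum_le_tsum hle)
    rw [← ENNReal.ofReal_tsum_of_nonneg hnn hs]
    exact ENNReal.ofReal_ne_top
  filter_upwards [ae_finite_setOfPred_mem htop] with ω hω
  refine (hω.insert 0).subset ?_
  rintro N ⟨h1, h2⟩
  rcases Nat.eq_zero_or_pos N with h0 | h0
  · exact Or.inl h0
  · right
    show ω ∈ U N
    rw [hU]
    dsimp only
    rw [if_pos ⟨h1, h0⟩]
    exact h2

/-- **Typical points.** -/
theorem ae_near (S : Set ℕ) (hS : ∀ b : ℝ, 0 < b → ∃ C : ℝ, ∀ X : ℝ, 1 ≤ X → {t : ℕ | t ∈ S ∧ (t : ℝ) ≤ X}.Finite ∧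
      ({t : ℕ | t ∈ S ∧ (t : ℝ) ≤ X}.ncard : ℝ) ≤ C * X * (1 + Real.log X) ^ (-b))
    {X : Type} [MetricSpace X] [MeasurableSpace X] (μ : Measure X) {C₀ m : ℝ} (hm : 0 < m)
    (hμ : ∀ (x : X) (r : ℝ), 0 < r → μ (Metric.closedBall x r) ≤ ENNReal.ofReal (C₀ * r ^ m)) (φ : ℕ → X) :
    ∀ᵐ ξ ∂μ, ∀ A : ℝ, {N : ℕ | N ∈ S ∧ dist (φ N) ξ ≤ (1 + Real.log N) ^ A * (N : ℝ) ^ (-(1 / m))}.Finite := by
  have h : ∀ k : ℕ, ∀ᵐ ξ ∂μ,
      {N : ℕ | N ∈ S ∧ ξ ∈ Metric.closedBall (φ N) ((1 + Real.log N) ^ (k : ℝ) * (N : ℝ) ^ (-(1 / m)))}.Finite := by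
    intro k
    refine ae_finite S hS μ _ C₀ (k * m) fun N hN => ?_
    have h1 := one_le_log hN
    have h2 : (0 : ℝ) < N := by exact_mod_cast hN
    refine (hμ _ _ (by positivity)).trans (le_of_eq ?_)
    congr 2
    rw [Real.mul_rpow (by positivity) (by positivity), ← Real.rpow_mul (by linarith), ← Real.rpow_mul h2.le]
    have h3 : -(1 / m) * m = -1 := by field_simp
    rw [h3, Real.rpow_neg_one, div_eq_mul_inv]
  filter_upwards [ae_all_iff.2 h] with ξ hξ A
  obtain ⟨k, hk⟩ := exists_nat_ge A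
  refine ((hξ k).insert 0).subset ?_
  rintro N ⟨h1, h2⟩
  rcases Nat.eq_zero_or_pos N with h0 | h0
  · exact Or.inl h0
  · right
    refine ⟨h1, ?_⟩
    rw [Metric.mem_closedBall, dist_comm]
    refine h2.trans ?_
    apply mul_le_mul_of_nonneg_right _ (by positivity)
    exact Real.rpow_le_rpow_of_exponent_le (one_le_log h0) hk

end Pool.Agent.R770.LG
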